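import Pool.Agent.Helper92.PV.St

/-!
# Project PV, module PT3: the bound for a patch
-/

set_option autoImplicit false

open Finset

namespace Pool.Agent.Helper44.PV

open Pool.Agent.Helper92.PV Pool.Agent.Helper92.PU Pool.Agent.Helper92.PW

private theorem card_box (N : ℕ) (S : Finset Pt)
    (h : ∀ p ∈ S, |p.1| ≤ (N : ℤ) ∧ |p.2.1| ≤ (N : ℤ) ∧ |p.2.2| ≤ (N : ℤ)) :
    S.card ≤ (2 * N + 1) ^ 3 := by
  have hsub : S ⊆ (Finset.Icc (-(N : ℤ)) N) ×ˢ ((Finset.Icc (-(N : ℤ)) N) ×ˢ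
      (Finset.Icc (-(N : ℤ)) N)) := by
    intro p hp
    obtain ⟨h1, h2, h3⟩ := h p hp
    rw [abs_le] at h1 h2 h3
    simp only [Finset.mem_product, Finset.mem_Icc]
    exact ⟨h1, h2, h3⟩
  refine (Finset.card_le_card hsub).trans ?_
  have e : (Finset.Icc (-(N : ℤ)) N).card = 2 * N + 1 := by
    rw [Int.card_Icc]
    omega
  rw [Finset.card_product, Finset.card_product, e]
  exact le_of_eq (by ring)

/-- **PT3** (the bound for a patch). -/
theorem hPT3 (h1 : StAUX) (h2 : StSPL) : StPT3 := by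
  intro k a ε hk ha ha1 hε
  obtain ⟨D, c, B0, hc, hB0, hA⟩ := h1 k a ha ha1
  obtain ⟨C1, hC1, hS⟩ := h2 k D c ε hk hc hε
  set B1 : ℝ := max B0 (64 * |(k : ℝ)| + 1) with hB1
  set N : ℕ := ⌈B1⌉₊ with hN
  refine ⟨max C1 ((2 * (N : ℝ) + 1) ^ 3), lt_max_of_lt_left hC1, ?_⟩
  intro B S hB hSP hx
  have hpow1 : 1 ≤ B ^ (1 / 10 + ε : ℝ) := Real.one_le_rpow hB (by positivity)
  have hpow0 : 0 ≤ B ^ (1 / 10 + ε : ℝ) := by linarith
  rcases le_or_gt B1 B with hcase | hcase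
  · have hB0' : B0 ≤ B := (le_max_left _ _).trans hcase
    have hkB : 64 * |(k : ℝ)| ≤ B ^ 3 := by
      have e1 : 64 * |(k : ℝ)| + 1 ≤ B := (le_max_right _ _).trans hcase
      have e2 : B ≤ B ^ 3 := by
        calc B = B ^ 1 := (pow_one B).symm
          _ ≤ B ^ 3 := pow_le_pow_right₀ hB (by norm_num)
      linarith
    obtain ⟨G, hG0, hGh, hGc, hGv⟩ := hA B S hB0' hSP hx
    have hx' : ∀ p ∈ S, ∀ q ∈ S, |xi p - xi q| ≤ B ^ (-(3 / 4) : ℝ) := by
      intro p hp q hq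
      exact (hx p hp q hq).trans (Real.rpow_le_rpow_of_exponent_le hB (by linarith))
    have := hS B S G hB hkB hSP hx' hG0 hGh hGc hGv
    exact this.trans (mul_le_mul_of_nonneg_right (le_max_left _ _) hpow0)
  · have hbox : S.card ≤ (2 * N + 1) ^ 3 := by
      apply card_box
      intro p hp
      have h := hSP p hp
      have hBN : B ≤ (N : ℝ) := hcase.le.trans (Nat.le_ceil _)
      have e3 : |(p.2.2 : ℝ)| ≤ (N : ℝ) := h.z_le.trans hBN
      have e2 : |(p.2.1 : ℝ)| ≤ (N : ℝ) := h.yz.trans e3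
      have e1 : |(p.1 : ℝ)| ≤ (N : ℝ) := h.xy.trans e2
      refine ⟨?_, ?_, ?_⟩
      · exact_mod_cast e1
      · exact_mod_cast e2
      · exact_mod_cast e3
    have hbox' : (S.card : ℝ) ≤ (2 * (N : ℝ) + 1) ^ 3 := by exact_mod_cast hbox
    calc (S.card : ℝ) ≤ (2 * (N : ℝ) + 1) ^ 3 * 1 := by rw [mul_one]; exact hbox'
      _ ≤ max C1 ((2 * (N : ℝ) + 1) ^ 3) * B ^ (1 / 10 + ε : ℝ) :=
        mul_le_mul (le_max_right _ _) hpow1 zero_le_one (le_max_of_le_left hC1.le)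

end Pool.Agent.Helper44.PV
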